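import Pool.Agent.H6.NE.Stm1

set_option autoImplicit false

open Finset

namespace H54.NE

open H6.NE

section
variable {p N : ℕ}

/-- `v` attains the minimum of the length of the stabiliser -/
def mnL {k V W : Type} [AddCommGroup k] [Module (ZMod (p ^ N)) k] [AddCommGroup V]
    [Module (ZMod (p ^ N)) V] [AddCommGroup W] [Module (ZMod (p ^ N)) W]
    (b : k →ₗ[ZMod (p ^ N)] V →ₗ[ZMod (p ^ N)] W) (v : V) : Prop :=
  ∀ w, ln p (Sv b v) ≤ ln p (Sv b w)

theorem Sv_smul {k V W : Type} [AddCommGroup k] [Module (ZMod (p ^ N)) k] [AddCommGroup V]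
    [Module (ZMod (p ^ N)) V] [AddCommGroup W] [Module (ZMod (p ^ N)) W]
    (b : k →ₗ[ZMod (p ^ N)] V →ₗ[ZMod (p ^ N)] W) (a : ZMod (p ^ N)) (ha : IsUnit a) (v : V) :
    Sv b (a • v) = Sv b v := by
  ext y
  rw [mem_Sv, mem_Sv, map_smul]
  obtain ⟨u, rfl⟩ := ha
  constructor
  · intro h
    have h2 : ((u⁻¹ : (ZMod (p ^ N))ˣ) : ZMod (p ^ N)) • ((u : ZMod (p ^ N)) • (b y) v) = 0 := by
      rw [h, smul_zero]
    rwa [smul_smul, Units.inv_mul, one_smul] at h2
  · intro h
    rw [h, smul_zero]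

theorem bad1 [Fact p.Prime] (hAM : S_AM) {k V W : Type} [AddCommGroup k]
    [Module (ZMod (p ^ N)) k] [Finite k] [AddCommGroup V]
    [Module (ZMod (p ^ N)) V] [AddCommGroup W] [Module (ZMod (p ^ N)) W]
    (b : k →ₗ[ZMod (p ^ N)] V →ₗ[ZMod (p ^ N)] W) (ρ : ℕ)
    (hρ : ∀ v, ln p k ≤ ln p (Sv b v) + ρ) (u : V) (hu : mnL b u) (x : V)
    (T : Finset (ZMod (p ^ N))) (hT : Nd T) (h : ∀ s ∈ T, ¬ mnL b (x + s • u)) :
    T.card ≤ ρ := by
  have h1 := hAM p N k V W b ⊤ x u T ∅ (Finset.disjoint_empty_right _)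
    (by rw [Finset.union_empty]; exact hT) (Or.inl rfl)
    (fun s hs => by
      have h2 := h s hs
      unfold mnL at h2
      push Not at h2
      obtain ⟨w, hw⟩ := h2
      have := hu w
      omega)
    (fun s hs => absurd hs (Finset.notMem_empty s))
  have h2 := hρ u
  rw [Finset.card_empty] at h1
  omega

theorem bad2 [Fact p.Prime] (hAM : S_AM) {k V W : Type} [AddCommGroup k]
    [Module (ZMod (p ^ N)) k] [Finite k] [AddCommGroup V]
    [Module (ZMod (p ^ N)) V] [AddCommGroup W] [Module (ZMod (p ^ N)) W]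
    (b : k →ₗ[ZMod (p ^ N)] V →ₗ[ZMod (p ^ N)] W) (B : Submodule (ZMod (p ^ N)) k) (ρ : ℕ)
    (hρ : ∀ v, ln p k ≤ ln p (Sv b v) + ρ) (u : V) (hu : mnL b u) (huB : ¬ Sv b u ≤ B) (x : V)
    (T : Finset (ZMod (p ^ N))) (hT : Nd T)
    (h : ∀ s ∈ T, ¬ (mnL b (x + s • u) ∧ ¬ Sv b (x + s • u) ≤ B)) :
    T.card ≤ ρ := by
  classical
  have hun : T.filter (fun s => ¬ mnL b (x + s • u)) ∪ T.filter (fun s => mnL b (x + s • u)) = T := by
    rw [Finset.union_comm, Finset.filter_union_filter_not_eq]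
  have hdis : Disjoint (T.filter (fun s => ¬ mnL b (x + s • u)))
      (T.filter (fun s => mnL b (x + s • u))) :=
    (Finset.disjoint_filter_filter_not T T (fun s => mnL b (x + s • u))).symm
  have h1 := hAM p N k V W b B x u (T.filter (fun s => ¬ mnL b (x + s • u)))
    (T.filter (fun s => mnL b (x + s • u))) hdis
    (by rw [hun]; exact hT) (Or.inr huB)
    (fun s hs => by
      have h2 := (Finset.mem_filter.1 hs).2
      unfold mnL at h2
      push Not at h2
      obtain ⟨w, hw⟩ := h2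
      have := hu w
      omega)
    (fun s hs => by
      rw [Finset.mem_filter] at hs
      refine ⟨hu _, ?_⟩
      by_contra hcon
      exact h s hs.1 ⟨hs.2, hcon⟩)
  have h2 := hρ u
  rw [← Finset.card_union_of_disjoint hdis, hun] at h1
  omega

theorem t_LAY (hLEN : S_LEN) (hNOD : S_NOD) (hAM : S_AM) (hDEF : S_DEF) (hPL : S_PL) : S_LAY := by
  intro p N _ hN k V _ _ _ _ _ _ b Vj ρ M hV0 hVdec hbV hρ h2ρ hρp hgen
  obtain ⟨-, -, -, hmono, heq, hinj, -, -⟩ := hLEN p N
  obtain ⟨hnd, hndc, -, -⟩ := hNOD p N hN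
  -- the quotient maps
  let bq : (i : ℕ) → (k →ₗ[ZMod (p ^ N)] V →ₗ[ZMod (p ^ N)] (V ⧸ Vj i)) :=
    fun i => b.compr₂ (Vj i).mkQ
  have hbq : ∀ i y v, bq i y v = (Vj i).mkQ (b y v) := fun i y v => rfl
  have hmem : ∀ i y v, y ∈ Sv (bq i) v ↔ b y v ∈ Vj i := by
    intro i y v
    rw [mem_Sv, hbq, Submodule.mkQ_apply, Submodule.Quotient.mk_eq_zero]
  have hSle : ∀ i v, Sv b v ≤ Sv (bq i) v := by
    intro i v y hy
    rw [mem_Sv] at hy
    rw [hmem, hy]
    exact zero_mem _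
  have hρq : ∀ i v, ln p k ≤ ln p (Sv (bq i) v) + ρ := by
    intro i v
    have h1 := hρ v
    have h2 := hmono k _ _ (hSle i v)
    omega
  -- minimisers
  have hmin : ∀ i, ∃ v, mnL (bq i) v := by
    intro i
    obtain ⟨v, hv⟩ := Finite.exists_min (fun v : V => ln p (Sv (bq i) v))
    exact ⟨v, hv⟩
  choose v0 hv0 using hmin
  have hclaim : ∀ j < M, ln p (Sv (bq (j + 2)) (v0 (j + 2))) + 1 ≤
      ln p (Sv (bq (j + 1)) (v0 (j + 1))) := by
    intro j hj
    by_contra hcon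
    push Not at hcon
    -- the submodule `B`
    let B : Submodule (ZMod (p ^ N)) k :=
      { carrier := {y | ∀ w ∈ Vj j, b y w ∈ Vj (j + 2)}
        add_mem' := by
          intro a c ha hc w hw
          rw [map_add, LinearMap.add_apply]
          exact add_mem (ha w hw) (hc w hw)
        zero_mem' := by
          intro w _
          rw [map_zero, LinearMap.zero_apply]
          exact zero_mem _
        smul_mem' := by
          intro c a ha w hw
          rw [map_smul, LinearMap.smul_apply]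
          exact Submodule.smul_mem _ _ (ha w hw) }
    have hB : ∀ y, y ∈ B ↔ ∀ w ∈ Vj j, b y w ∈ Vj (j + 2) := fun y => Iff.rfl
    obtain ⟨v, hv, y, hy, w, hw, hyw⟩ := hgen j hj
    have hvB : ¬ Sv b v ≤ B := by
      intro h
      exact hyw ((hB y).1 (h hy) w hw)
    -- (a)
    obtain ⟨u, ⟨hu1, hu2⟩, hu3⟩ := hPL p N hN V (fun v => mnL b v ∧ ¬ Sv b v ≤ B)
      (fun v => mnL (bq (j + 2)) v)
      (fun a ha v hv => by
        unfold mnL at hv ⊢
        rw [Sv_smul b a ha]
        exact hv)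
      (fun a ha v hv => by
        unfold mnL at hv ⊢
        rw [Sv_smul _ a ha]
        exact hv)
      v (v0 (j + 2)) ρ ρ ⟨hv, hvB⟩ (hv0 (j + 2))
      (fun x T hT h => bad2 hAM b B ρ hρ v hv hvB x T hT h)
      (fun x T hT h => bad1 hAM (bq (j + 2)) ρ (hρq (j + 2)) _ (hv0 (j + 2)) x T hT h)
      (by omega)
    have huB : ¬ Sv (bq (j + 2)) u ≤ B := fun h => hu2 ((hSle (j + 2) u).trans h)
    -- (b)
    obtain ⟨x, hx1, hx2, hx3⟩ := hPL p N hN V (fun v => mnL (bq (j + 1)) v)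
      (fun v => mnL (bq (j + 2)) v ∧ ¬ Sv (bq (j + 2)) v ≤ B)
      (fun a ha v hv => by
        unfold mnL at hv ⊢
        rw [Sv_smul _ a ha]
        exact hv)
      (fun a ha v hv => by
        unfold mnL at hv ⊢
        rw [Sv_smul _ a ha]
        exact hv)
      (v0 (j + 1)) u ρ ρ (hv0 (j + 1)) ⟨hu3, huB⟩
      (fun x T hT h => bad1 hAM (bq (j + 1)) ρ (hρq (j + 1)) _ (hv0 (j + 1)) x T hT h)
      (fun x T hT h => bad2 hAM (bq (j + 2)) B ρ (hρq (j + 2)) u hu3 huB x T hT h)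
      (by omega)
    -- (c)
    have hle : Sv (bq (j + 2)) x ≤ Sv (bq (j + 1)) x := by
      intro z hz
      rw [hmem] at hz ⊢
      exact hVdec (j + 1) hz
    have hSeq : Sv (bq (j + 2)) x = Sv (bq (j + 1)) x := by
      refine heq k _ _ hle ?_
      have h1 := hx1 (v0 (j + 1))
      have h2 := hv0 (j + 2) x
      omega
    obtain ⟨z, hz, hzB⟩ := SetLike.not_le_iff_exists.1 hx3
    rw [hB] at hzB
    push Not at hzB
    obtain ⟨w', hw', hzw⟩ := hzB
    obtain ⟨m', hm'⟩ := hDEF p N k V _ (bq (j + 2)) w' x _ hnd (fun s _ => hx2 _) 0 (fun _ => z)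
      (by
        rw [hndc]
        have := hρq (j + 2) x
        omega)
      (by rw [mem_Sv] at hz; exact hz)
      (fun i hi => absurd hi (Nat.not_lt_zero i))
    rw [hbq, hbq, ← map_add, Submodule.mkQ_apply, Submodule.Quotient.mk_eq_zero] at hm'
    have h1 : b z w' ∈ Vj (j + 1) := hbV z j w' hw'
    have h2 : b m' x ∈ Vj (j + 1) := by
      have h3 := sub_mem (hVdec (j + 1) hm') h1
      rwa [add_sub_cancel_left] at h3
    have h4 : m' ∈ Sv (bq (j + 1)) x := (hmem _ _ _).2 h2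
    rw [← hSeq, hmem] at h4
    have h5 := sub_mem hm' h4
    rw [add_sub_cancel_right] at h5
    exact hzw h5
  have hind : ∀ j ≤ M, ln p (Sv (bq (j + 1)) (v0 (j + 1))) + j ≤ ln p k := by
    intro j
    induction j with
    | zero =>
      intro _
      rw [add_zero]
      exact hinj _ _ (Submodule.subtype _) (Submodule.injective_subtype _)
    | succ j ih =>
      intro hj
      have h1 := ih (by omega)
      have h2 := hclaim j (by omega)
      have h3 : j + 1 + 1 = j + 2 := rfl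
      rw [h3]
      omega
  have h1 := hind M le_rfl
  have h2 := hρq (M + 1) (v0 (M + 1))
  omega

end

end H54.NE
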