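import Pool.Agent.H6.NE.Stm2

set_option autoImplicit false

open Finset

namespace H54.NE

open H6.NE

/-- if `y w` is in a `y`-stable submodule then so is `ex y w - w` -/
theorem ex_sub_mem {p N : ℕ} (hp : 0 < p) {V : Type} [AddCommGroup V] [Module (ZMod (p ^ N)) V]
    (y : Module.End (ZMod (p ^ N)) V) (Q : Submodule (ZMod (p ^ N)) V) (hQ : ∀ v ∈ Q, y v ∈ Q)
    (w : V) (hw : y w ∈ Q) : ex p N y w - w ∈ Q := by
  have hpow : ∀ i : ℕ, (y ^ (i + 1)) w ∈ Q := by
    intro i
    induction i with
    | zero => rw [zero_add, pow_one]; exact hw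
    | succ i ih =>
      rw [pow_succ', Module.End.mul_apply]
      exact hQ _ ih
  unfold ex
  obtain ⟨n, rfl⟩ : ∃ n, p = n + 1 := ⟨p - 1, by omega⟩
  rw [Finset.sum_range_succ', LinearMap.add_apply]
  simp only [Nat.factorial_zero, Nat.cast_one, pow_zero]
  have h1 : (((1 : ZMod ((n + 1) ^ N))⁻¹) • (1 : Module.End (ZMod ((n + 1) ^ N)) V)) w = w := by
    rw [ZMod.inv_one, one_smul, Module.End.one_apply]
  rw [h1, add_sub_cancel_right, LinearMap.sum_apply]
  refine Submodule.sum_mem _ (fun i _ => ?_)
  rw [LinearMap.smul_apply]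
  exact Submodule.smul_mem _ _ (hpow i)

theorem map_mkQ_bot {R V : Type} [Ring R] [AddCommGroup V] [Module R V] (F A : Submodule R V) :
    A.map F.mkQ = ⊥ ↔ A ≤ F := by
  rw [eq_bot_iff, Submodule.map_le_iff_le_comap]
  constructor
  · intro h x hx
    have h1 := h hx
    rw [Submodule.mem_comap, Submodule.mem_bot, Submodule.mkQ_apply,
      Submodule.Quotient.mk_eq_zero] at h1
    exact h1
  · intro h x hx
    rw [Submodule.mem_comap, Submodule.mem_bot, Submodule.mkQ_apply,
      Submodule.Quotient.mk_eq_zero]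
    exact h hx

theorem t_MOD (hCHN : S_CHN) (hBND : S_BND) (hCNT : S_CNT) (hLAY : S_LAY) (hNIL : S_NIL)
    (hSTG : S_STG) : S_MOD := by
  intro p N hpf hN G V _ _ _ _ _ ρ e h2e h2p hG hOrb
  obtain ⟨K, F, hF, Gd, r, hInv, hFJ, hKn⟩ := hCHN p N hN G V ρ e h2e h2p hG hOrb
  obtain ⟨hr, hidx⟩ := (hBND p N hN h2p G V ρ e hG hOrb K F hF hInv.hJ).2 Gd r hInv
  refine ⟨K, Gd, r, hInv.nor, hInv.ne, hr, hInv.sc, hInv.st, hidx,
    hCNT p N hN h2p G V ρ e hG hOrb K F hF Gd r hInv, ?_⟩
  intro hre
  obtain ⟨hn1, hn2, hn3, hn4, hn5⟩ := hNIL p N G V ρ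
  obtain ⟨hq1, hq2, hq3, hq4, hq5⟩ := hNIL p N G (V ⧸ F) (qr ρ F hF)
  have hfinQ : Finite (V ⧸ F) := Finite.of_surjective F.mkQ (Submodule.mkQ_surjective F)
  have hq5' := hq5 inferInstance inferInstance hG
  have hn5' := hn5 inferInstance inferInstance hG
  have hbot : JV (qr ρ F hF) K (p - 1) = ⊥ := by
    rw [hn3 F hF K (p - 1), ← hFJ]
    exact (map_mkQ_bot F F).2 le_rfl
  obtain ⟨-, hs2, hs3, -, -, hs6, hs7⟩ := hSTG p N hN h2p G (V ⧸ F) (qr ρ F hF) K hbot
  obtain ⟨u, hu⟩ := hInv.ne
  have hmx := hInv.mx u hu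
  have hid := hInv.idx u hu
  have hfinE : Finite (Module.End (ZMod (p ^ N)) (V ⧸ F)) :=
    Finite.of_injective (fun f : Module.End (ZMod (p ^ N)) (V ⧸ F) => (f : (V ⧸ F) → (V ⧸ F)))
      DFunLike.coe_injective
  have hkey : JV (qr ρ F hF) K e = ⊥ := by
    by_contra hne
    have hL := hLAY p N hN (LG (qr ρ F hF) K) (V ⧸ F) (bl (qr ρ F hF) K)
      (JV (qr ρ F hF) K) (ln p (LG (qr ρ F hF) K) - ln p (SG (qr ρ F hF) K (F.mkQ u))) e
      rfl (fun j => hq1 K j (j + 1) (Nat.le_succ j))
      (fun y j v hv => hs7 y y.2 j v hv)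
      (fun v => by
        have := hmx v
        change _ ≤ ln p (SG (qr ρ F hF) K v) + _
        omega)
      (by omega) (by omega)
      (by
        intro j hj
        by_contra hcon
        push Not at hcon
        -- the subgroup acting trivially on the layer
        let K0 : Subgroup G :=
          { carrier := {g | g ∈ K ∧ ∀ w ∈ JV (qr ρ F hF) K j,
              (qr ρ F hF) g w - w ∈ JV (qr ρ F hF) K (j + 2)}
            mul_mem' := by
              rintro a c ⟨ha, ha'⟩ ⟨hc, hc'⟩
              refine ⟨mul_mem ha hc, fun w hw => ?_⟩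
              have h1 := hc' w hw
              have h2 := hq4 K (j + 2) hInv.nor a h1
              rw [Submodule.mem_comap, map_sub] at h2
              have h3 := add_mem h2 (ha' w hw)
              rw [map_mul, Module.End.mul_apply]
              convert h3 using 1
              abel
            one_mem' := by
              refine ⟨one_mem _, fun w _ => ?_⟩
              rw [map_one, Module.End.one_apply, sub_self]
              exact zero_mem _
            inv_mem' := by
              rintro a ⟨ha, ha'⟩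
              refine ⟨inv_mem ha, fun w hw => ?_⟩
              have h1 := hq4 K (j + 2) hInv.nor a⁻¹ (ha' w hw)
              rw [Submodule.mem_comap, map_sub] at h1
              have h2 : (qr ρ F hF) a⁻¹ ((qr ρ F hF) a w) = w := by
                rw [← Module.End.mul_apply, ← map_mul, inv_mul_cancel, map_one]
                rfl
              rw [h2] at h1
              have h3 := neg_mem h1
              rwa [neg_sub] at h3 }
        have hK0 : K ≤ K0 := by
          have h1 : Kn (qr ρ F hF) K ≤ K0 := by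
            unfold Kn
            rw [Subgroup.closure_le]
            rintro g ⟨hgK, v, hv, hgv⟩
            refine ⟨hgK, fun w hw => ?_⟩
            obtain ⟨y, hy, hyg⟩ := hs3 g hgK
            have hyv : y v = 0 := by
              rw [hs6 y hy v, hyg]
              exact hgv
            have h2 := hcon v hv ⟨y, hy⟩ (by
              rw [mem_Sv]
              exact hyv) w hw
            have h3 : y w ∈ JV (qr ρ F hF) K (j + 2) := h2
            have h4 := ex_sub_mem (by omega : 0 < p) y (JV (qr ρ F hF) K (j + 2))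
              (fun v hv => hq1 K (j + 2) (j + 2 + 1) (Nat.le_succ _) (hs7 y hy (j + 2) v hv)) w h3
            rwa [hyg] at h4
          rwa [hKn] at h1
        have h1 : JV (qr ρ F hF) K (j + 1) ≤ JV (qr ρ F hF) K (j + 1 + 1) := by
          change Submodule.span _ _ ≤ _
          rw [Submodule.span_le]
          rintro _ ⟨g, hg, v, hv, rfl⟩
          exact (hK0 hg).2 v hv
        have h2 := hq5' K (j + 1) h1
        apply hne
        rw [eq_bot_iff, ← h2]
        exact hq1 K (j + 1) e hj)
    omega
  have hle : JV ρ K e ≤ F := by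
    rw [hn3 F hF K e] at hkey
    exact (map_mkQ_bot F _).1 hkey
  apply hn5' K e
  rw [hFJ] at hle
  exact hle.trans (hn1 K (e + 1) (p - 1) (by omega))

end H54.NE
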